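import Pool.Agent.W_448t8_h97.TG

/-!
Windows `j - 1` and `j` (MP_448cb3_co, case B): THE END: if every part with its shares has a nonnegative
value, then all the values vanish.
-/

set_option autoImplicit false

namespace Pool.Agent.GaussPoset.Win.Pn

set_option linter.unusedSectionVars false

open Finset W4 Wd
open Pool.Agent.GaussPoset.Win.So (N5s Z2s mem_Z2s)

universe u

variable {P : Type u} [Fintype P] [PartialOrder P] [DecidableEq P] {r i j : ℕ}
  {psi : P → P} {K C : Finset P} {p p' y y' w z v x : P}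

/-- the value of a part with its shares (twice): `g z y` is the share of the cover `y` of the join `z`
of a double and a single element -/
noncomputable def Lm (W : Wt) (g : P → P → ℤ) (i j : ℕ) (t : Tops P) : ℤ :=
  2 * own W i j t + ∑ p ∈ (PD P i).filter (fun p => (topOf p : Tops P) = t), shr W i p +
    ∑ z ∈ K2.Z2 j (topOf : P → Tops P), ∑ y ∈ (uc z).filter (fun y => (topOf y : Tops P) = t), g z y

/-- the sum of the values -/
theorem sum_Lm (W : Wt) (g : P → P → ℤ) : ∑ t : Tops P, Lm W g i j t =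
    2 * ∑ t : Tops P, own W i j t + ∑ p ∈ PD P i, shr W i p +
      ∑ z ∈ K2.Z2 j (topOf : P → Tops P), ∑ y ∈ uc z, g z y := by
  classical
  unfold Lm
  rw [sum_add_distrib, sum_add_distrib, ← mul_sum]
  congr 1
  · congr 1
    exact Finset.sum_fiberwise (PD P i) (fun p => (topOf p : Tops P)) (fun p => shr W i p)
  · rw [Finset.sum_comm]
    refine Finset.sum_congr rfl fun z _ => ?_
    exact Finset.sum_fiberwise (uc z) (fun y => (topOf y : Tops P)) (fun y => g z y)

section nj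

variable (h : NJ P r j) (hij : i + 1 = j) (hi1 : 1 ≤ i) (hb : 1 ≤ (lv P i).card)
  (R : EK.Red P j K psi)
include h hij hi1 hb R

/-- THE END -/
theorem nj_end (W : Wt) (h8 : 0 ≤ W.a8) (g : P → P → ℤ)
    (hg : ∀ z ∈ K2.Z2 j (topOf : P → Tops P), ∑ y ∈ uc z, g z y ≤ cst W i j K z)
    (hpos : ∀ t : Tops P, 0 ≤ Lm W g i j t) :
    (∀ t : Tops P, Lm W g i j t = 0) ∧
    (∀ z ∈ K2.Z2 j (topOf : P → Tops P), cst W i j K z = ∑ y ∈ uc z, g z y) ∧
    ∀ z ∈ mx (P := P) i, W.a8 * Wn i (topOf : P → Tops P) 3 z = 0 := by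
  classical
  have h1 := nj_total h hij hi1 hb R W
  have h2 := sum_Lm (i := i) (j := j) W g
  have h3 : ∑ z ∈ K2.Z2 j (topOf : P → Tops P), ∑ y ∈ uc z, g z y ≤
      ∑ z ∈ K2.Z2 j (topOf : P → Tops P), cst W i j K z := Finset.sum_le_sum hg
  have h4 : ∑ z ∈ mx (P := P) i, (-(W.a8 * Wn i (topOf : P → Tops P) 3 z)) =
      -(W.a8 * ∑ z ∈ mx (P := P) i, Wn i (topOf : P → Tops P) 3 z) := by
    rw [mul_sum, Finset.sum_neg_distrib]
  have h5 : ∀ z ∈ mx (P := P) i, 0 ≤ -(W.a8 * Wn i (topOf : P → Tops P) 3 z) := by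
    intro z hz
    have := nj_mixed8 h hij hi1 hz
    nlinarith
  have h6 := Finset.sum_nonneg h5
  have h7 := Finset.sum_nonneg (fun (t : Tops P) (_ : t ∈ (univ : Finset (Tops P))) => hpos t)
  have h8' : ∑ t : Tops P, Lm W g i j t = 0 := by linarith
  have h9 : ∑ z ∈ K2.Z2 j (topOf : P → Tops P), (cst W i j K z - ∑ y ∈ uc z, g z y) = 0 := by
    rw [sum_sub_distrib]
    linarith
  refine ⟨fun t => (Finset.sum_eq_zero_iff_of_nonneg (fun t _ => hpos t)).1 h8' t (mem_univ t),
    fun z hz => ?_, fun z hz => ?_⟩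
  · have := (Finset.sum_eq_zero_iff_of_nonneg (fun z hz => sub_nonneg.2 (hg z hz))).1 h9 z hz
    linarith
  · have := (Finset.sum_eq_zero_iff_of_nonneg h5).1 (by linarith) z hz
    linarith

end nj

/-- the value `LAM4` of helper96 -/
def lam4 : Wt := ⟨-4, 34, 4, 8, 6, 3, 3, 21, 10⟩

end Pool.Agent.GaussPoset.Win.Pn
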