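import Pool.Agent.W_448t8_h97.TH

/-!
Windows `j - 1` and `j` (MP_448cb3_co, case B): THE END with extra terms: any function of the parts with
total at most zero (the totals of the window `j + 1`, cross free coefficients, a redistribution along
the joins) may be added.
-/

set_option autoImplicit false

namespace Pool.Agent.GaussPoset.Win.Pn

set_option linter.unusedSectionVars false

open Finset W4 Wd
open Pool.Agent.GaussPoset.Win.So (N5s Z2s mem_Z2s)

universe u

variable {P : Type u} [Fintype P] [PartialOrder P] [DecidableEq P] {r i j : ℕ}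
  {psi : P → P} {K C : Finset P} {p p' y y' w z v x : P}

/-- the terms `f z p` of the covers `p` of the elements `z` of `Z`, at the part of `p` -/
noncomputable def Xt (Z : Finset P) (f : P → P → ℤ) (t : Tops P) : ℤ :=
  ∑ z ∈ Z, ∑ p ∈ (uc z).filter (fun p => (topOf p : Tops P) = t), f z p

/-- the sum of the terms over all the parts -/
theorem sum_Xt (Z : Finset P) (f : P → P → ℤ) :
    ∑ t : Tops P, Xt Z f t = ∑ z ∈ Z, ∑ p ∈ uc z, f z p := by
  classical
  unfold Xt
  rw [Finset.sum_comm]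
  refine Finset.sum_congr rfl fun z _ => ?_
  exact Finset.sum_fiberwise (uc z) (fun y => (topOf y : Tops P)) (fun y => f z y)

/-- the terms `f v` of the elements `v` of `Z`, at the part of `v` -/
noncomputable def Xv (Z : Finset P) (f : P → ℤ) (t : Tops P) : ℤ :=
  ∑ v ∈ Z.filter (fun v => (topOf v : Tops P) = t), f v

/-- the sum of the terms over all the parts -/
theorem sum_Xv (Z : Finset P) (f : P → ℤ) : ∑ t : Tops P, Xv Z f t = ∑ v ∈ Z, f v := by
  classical
  exact Finset.sum_fiberwise Z (fun v => (topOf v : Tops P)) f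

section nj

variable (h : NJ P r j) (hij : i + 1 = j) (hi1 : 1 ≤ i) (hb : 1 ≤ (lv P i).card)
  (R : EK.Red P j K psi)
include h hij hi1 hb R

/-- THE END, with an extra function `X` of the parts -/
theorem nj_endX (W : Wt) (h8 : 0 ≤ W.a8) (g : P → P → ℤ) (X : Tops P → ℤ)
    (hX : ∑ t : Tops P, X t ≤ 0)
    (hg : ∀ z ∈ K2.Z2 j (topOf : P → Tops P), ∑ y ∈ uc z, g z y ≤ cst W i j K z)
    (hpos : ∀ t : Tops P, 0 ≤ Lm W g i j t + X t) :
    (∀ t : Tops P, Lm W g i j t + X t = 0) ∧
    (∑ t : Tops P, X t = 0) ∧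
    (∀ z ∈ K2.Z2 j (topOf : P → Tops P), cst W i j K z = ∑ y ∈ uc z, g z y) ∧
    ∀ z ∈ mx (P := P) i, W.a8 * Wn i (topOf : P → Tops P) 3 z = 0 := by
  classical
  have h1 := nj_total h hij hi1 hb R W
  have h2 := sum_Lm (i := i) (j := j) W g
  have h3 : ∑ z ∈ K2.Z2 j (topOf : P → Tops P), ∑ y ∈ uc z, g z y ≤
      ∑ z ∈ K2.Z2 j (topOf : P → Tops P), cst W i j K z := Finset.sum_le_sum hg
  have h4 : ∑ z ∈ mx (P := P) i, (-(W.a8 * Wn i (topOf : P → Tops P) 3 z)) =
      -(W.a8 * ∑ z ∈ mx (P := P) i, Wn i (topOf : P → Tops P) 3 z) := by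
    rw [mul_sum, Finset.sum_neg_distrib]
  have h5 : ∀ z ∈ mx (P := P) i, 0 ≤ -(W.a8 * Wn i (topOf : P → Tops P) 3 z) := by
    intro z hz
    have := nj_mixed8 h hij hi1 hz
    nlinarith
  have h6 := Finset.sum_nonneg h5
  have h7 := Finset.sum_nonneg (fun (t : Tops P) (_ : t ∈ (univ : Finset (Tops P))) => hpos t)
  have h7' : ∑ t : Tops P, (Lm W g i j t + X t) =
      ∑ t : Tops P, Lm W g i j t + ∑ t : Tops P, X t := sum_add_distrib
  have h8' : ∑ t : Tops P, (Lm W g i j t + X t) = 0 := by linarith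
  have hX0 : ∑ t : Tops P, X t = 0 := by linarith
  have h9 : ∑ z ∈ K2.Z2 j (topOf : P → Tops P), (cst W i j K z - ∑ y ∈ uc z, g z y) = 0 := by
    rw [sum_sub_distrib]
    linarith
  refine ⟨fun t => (Finset.sum_eq_zero_iff_of_nonneg (fun t _ => hpos t)).1 h8' t (mem_univ t),
    hX0, fun z hz => ?_, fun z hz => ?_⟩
  · have := (Finset.sum_eq_zero_iff_of_nonneg (fun z hz => sub_nonneg.2 (hg z hz))).1 h9 z hz
    linarith
  · have := (Finset.sum_eq_zero_iff_of_nonneg h5).1 (by linarith) z hz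
    linarith

end nj

end Pool.Agent.GaussPoset.Win.Pn
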