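import Pool.Agent.W_448t8_h97.TF
import Pool.Agent.W_448p_h97.PaP
import Pool.Agent.W_448p_h97.PcA

/-!
Windows `j - 1` and `j` (MP_448cb3_co, case B): THE TOTAL IDENTITY of a functional with free weights, as a
sum over the parts, their pendants and the joins.
-/

set_option autoImplicit false

namespace Pool.Agent.GaussPoset.Win.Pn

set_option linter.unusedSectionVars false

open Finset W4 Wd
open Pool.Agent.GaussPoset.Win.SO (con PN on mem_PN vp)
open Pool.Agent.GaussPoset.Win.I2 (bb VV)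
open Pool.Agent.GaussPoset.Win.So (N5s Z2s mem_Z2s env TWs mem_TWs)

universe u

variable {P : Type u} [Fintype P] [PartialOrder P] [DecidableEq P] {r i j : ℕ}
  {psi : P → P} {K C : Finset P} {p p' y y' w z v x : P}

/-- the coefficient (2,1) at the window `j` -/
noncomputable def F2 (j : ℕ) (t : Tops P) : ℤ :=
  I2.al 2 (bb j (j + 1) (topOf : P → Tops P) t) (VV j (j + 1) (topOf : P → Tops P) t)

/-- the additive quantity at the energy four at the window `j` -/
noncomputable def F4 (j : ℕ) (t : Tops P) : ℤ :=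
  I2.Q4 (bb j (j + 1) (topOf : P → Tops P) t) (VV j (j + 1) (topOf : P → Tops P) t)

/-- the coefficient (3,2) at the window `j` -/
noncomputable def F3 (j : ℕ) (t : Tops P) : ℤ :=
  I2.w3 (bb j (j + 1) (topOf : P → Tops P) t) (VV j (j + 1) (topOf : P → Tops P) t)

/-- the additive quantity at the energy six at the window `j` -/
noncomputable def F6 (j : ℕ) (t : Tops P) : ℤ :=
  I2.w3 (bb j (j + 1) (topOf : P → Tops P) t) (VV j (j + 1) (topOf : P → Tops P) t) ^ 2 -
    2 * I2.w6 (bb j (j + 1) (topOf : P → Tops P) t) (VV j (j + 1) (topOf : P → Tops P) t)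

/-- the value of a join at the energy four -/
noncomputable def e1 (j : ℕ) (K : Finset P) (z : P) : ℤ := 1 + EK.Ek j K (K2.Tz z) 1

/-- the value of a join at the energy six -/
noncomputable def e23 (j : ℕ) (K : Finset P) (z : P) : ℤ :=
  EK.Ek j K (K2.Tz z) 3 + EK.Ek j K (K2.Tz z) 2

/-- the weights of a functional -/
structure Wt where
  a3 : ℤ
  a5 : ℤ
  a6 : ℤ
  a8 : ℤ
  a10 : ℤ
  f2 : ℤ
  f4 : ℤ
  f3 : ℤ
  f6 : ℤ

/-- the value of a part -/
noncomputable def own (W : Wt) (i j : ℕ) (t : Tops P) : ℤ :=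
  W.a3 * A3 i t + W.a5 * B5 i t + W.a6 * C6 i t + W.a8 * C8 i t + W.a10 * C10 i t +
    W.f2 * F2 j t + W.f4 * F4 j t + W.f3 * F3 j t + W.f6 * F6 j t

/-- the share of a pendant (twice) -/
noncomputable def shr (W : Wt) (i : ℕ) (p : P) : ℤ :=
  zc i (topOf : P → Tops P) p * (W.a5 + W.a10) -
    4 * W.a6 * zc i (topOf : P → Tops P) p * (kc p + nn i p - 3) -
    2 * W.a6 * ∑ z ∈ zs i (topOf : P → Tops P) p, kc z -
    2 * W.a8 * zc i (topOf : P → Tops P) p * (rho i (topOf : P → Tops P) 5 p - A3 i (topOf p)) -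
    4 * W.a10 * zc i (topOf : P → Tops P) p *
      (rho i (topOf : P → Tops P) 7 p - B5 i (topOf p)) +
    (2 * W.a10 - W.a8) * (zc i (topOf : P → Tops P) p * (zc i (topOf : P → Tops P) p - 1)) -
    (W.a6 - W.a8 + W.a10) * ∑ z ∈ zs i (topOf : P → Tops P) p,
      ((tw i (topOf : P → Tops P) z).card : ℤ)

open Classical in
/-- the cost of a join of a double and a single element (twice) -/
noncomputable def cst (W : Wt) (i j : ℕ) (K : Finset P) (z : P) : ℤ :=
  4 * W.f4 * e1 j K z + 4 * W.f6 * e23 j K z +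
    (if z ∈ N5s i (topOf : P → Tops P) then 4 * W.a6 - 4 * W.a10 else 0)

section nj

variable (h : NJ P r j)
include h

/-- the joins with a 3-site element are joins of a double and a single element -/
theorem N5s_sub (hij : i + 1 = j) :
    N5s i (topOf : P → Tops P) ⊆ K2.Z2 j (topOf : P → Tops P) := by
  intro v hv
  have H := h.g.H
  have hκ : Split (i + 2) (topOf : P → Tops P) := by
    rw [show i + 2 = j + 1 by omega]
    exact h.split
  obtain ⟨h1, h2, h3, h4⟩ := So.mem_N5s.1 hv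
  obtain ⟨p, p', hk, huc⟩ := So.two_labels H hκ h2 (by omega)
  have D : So.CrV i (topOf : P → Tops P) v p p' := ⟨h1, huc, hk⟩
  have lp := D.lp H
  have lp' := D.lp' H
  have n1 : 1 ≤ (uc p).card := card_pos.2 (uc_nonempty H (by omega))
  have n2 : 1 ≤ (uc p').card := card_pos.2 (uc_nonempty H (by omega))
  rw [D.up1 H hκ] at h3
  rw [K2.mem_Z2]
  refine ⟨by rw [show j + 1 = i + 2 by omega]; exact h2, ?_⟩
  rcases Nat.lt_or_ge 1 (uc p).card with h5 | h5
  · exact ⟨p, p', ⟨by omega, huc, hk, by omega, by omega⟩⟩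
  · exact ⟨p', p, ⟨by omega, by rw [huc, pair_comm], Ne.symm hk, by omega, by omega⟩⟩

/-- THE TOTALS AT THE WINDOW `j` -/
theorem nj_S (hj : 2 ≤ j) (R : EK.Red P j K psi) :
    ∑ t : Tops P, F2 j t = 0 ∧ ∑ t : Tops P, F3 j t = 0 ∧
    ∑ t : Tops P, F4 j t = -(2 * ∑ z ∈ K2.Z2 j (topOf : P → Tops P), e1 j K z) ∧
    ∑ t : Tops P, F6 j t = -(2 * ∑ z ∈ K2.Z2 j (topOf : P → Tops P), e23 j K z) := by
  have hjr : j ≤ r := by have := h.g.hr; omega
  obtain ⟨h1, h2, h3⟩ := K2.four_two_gen h.g.H hjr (EK.NJ.noQ h hj)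
    (fun m hm => h.g.good m (by omega)) h.split R.mat R.sub (fun a _ => EK.NJ.PG h hj R a)
  have h4 := K2.six_four h.g.H hjr (EK.NJ.noQ h hj) (fun m hm => h.g.good m (by omega)) h.split
    R.mat R.sub (fun a _ => EK.NJ.PG h hj R a)
  rw [nj_image h] at h1 h2 h3 h4
  refine ⟨h2, h1, ?_, ?_⟩
  · refine h3.trans ?_
    congr 2
    refine Finset.sum_congr rfl fun z _ => ?_
    unfold e1
    rw [K2.Ek_zero R.sub]
    ring
  · exact h4

/-- the pairs of joins with the same covers -/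
lemma four_DB (hij : i + 1 = j) : 4 * ((DB i (topOf : P → Tops P)).card : ℤ) =
    ∑ p ∈ PD P i, ∑ z ∈ zs i (topOf : P → Tops P) p, ((tw i (topOf : P → Tops P) z).card : ℤ) := by
  have H := h.g.H
  have hκ : Split (i + 2) (topOf : P → Tops P) := by
    rw [show i + 2 = j + 1 by omega]
    exact h.split
  rw [← two_sum H hκ (fun z => ((tw i (topOf : P → Tops P) z).card : ℤ)), sum_tw H hκ,
    TWs_DB H hκ]
  unfold DB
  ring

/-- THE TOTAL IDENTITY -/
theorem nj_total (hij : i + 1 = j) (hi1 : 1 ≤ i) (hb : 1 ≤ (lv P i).card)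
    (R : EK.Red P j K psi) (W : Wt) :
    2 * ∑ t : Tops P, own W i j t + ∑ p ∈ PD P i, shr W i p +
      ∑ z ∈ K2.Z2 j (topOf : P → Tops P), cst W i j K z -
        2 * W.a8 * ∑ z ∈ mx (P := P) i, Wn i (topOf : P → Tops P) 3 z = 0 := by
  classical
  have r3 := nj_R3 h hij hi1 hb
  have r5 := nj_R5 h hij hi1 hb
  have r6 := nj_R6 h hij hi1 hb
  have r8 := nj_R8 h hij hi1 hb
  have r10 := nj_R10 h hij hi1 hb
  obtain ⟨s2, s3, s4, s6⟩ := nj_S h (by omega) R
  have d4 := four_DB h hij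
  have e0 : ∑ t : Tops P, own W i j t = W.a3 * ∑ t : Tops P, A3 i t +
      W.a5 * ∑ t : Tops P, B5 i t + W.a6 * ∑ t : Tops P, C6 i t + W.a8 * ∑ t : Tops P, C8 i t +
      W.a10 * ∑ t : Tops P, C10 i t + W.f2 * ∑ t : Tops P, F2 j t +
      W.f4 * ∑ t : Tops P, F4 j t + W.f3 * ∑ t : Tops P, F3 j t +
      W.f6 * ∑ t : Tops P, F6 j t := by
    simp only [mul_sum, ← sum_add_distrib]
    rfl
  have e2 : ∑ z ∈ K2.Z2 j (topOf : P → Tops P), cst W i j K z =
      4 * W.f4 * ∑ z ∈ K2.Z2 j (topOf : P → Tops P), e1 j K z +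
      4 * W.f6 * ∑ z ∈ K2.Z2 j (topOf : P → Tops P), e23 j K z +
        (4 * W.a6 - 4 * W.a10) * ((N5s i (topOf : P → Tops P)).card : ℤ) := by
    unfold cst
    rw [sum_add_distrib, sum_add_distrib, ← mul_sum, ← mul_sum, ← Finset.sum_filter,
      sum_const, nsmul_eq_mul, mul_comm (4 * W.a6 - 4 * W.a10)]
    congr 3
    congr 1
    ext z
    rw [mem_filter]
    exact ⟨fun hz => hz.2, fun hz => ⟨N5s_sub h hij hz, hz⟩⟩
  have e3 : ∑ p ∈ PD P i, shr W i p =
      (W.a5 + W.a10) * ∑ p ∈ PD P i, zc i (topOf : P → Tops P) p -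
      2 * W.a6 * ∑ p ∈ PD P i, (2 * zc i (topOf : P → Tops P) p * (kc p + nn i p - 3) +
        ∑ z ∈ zs i (topOf : P → Tops P) p, kc z) -
      W.a8 * ∑ p ∈ PD P i, (2 * zc i (topOf : P → Tops P) p *
        (rho i (topOf : P → Tops P) 5 p - A3 i (topOf p)) +
          zc i (topOf : P → Tops P) p * (zc i (topOf : P → Tops P) p - 1)) -
      W.a10 * ∑ p ∈ PD P i, (4 * zc i (topOf : P → Tops P) p *
        (rho i (topOf : P → Tops P) 7 p - B5 i (topOf p)) - zc i (topOf : P → Tops P) p -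
        2 * (zc i (topOf : P → Tops P) p * (zc i (topOf : P → Tops P) p - 1))) -
      W.a10 * ∑ p ∈ PD P i, zc i (topOf : P → Tops P) p -
      (W.a6 - W.a8 + W.a10) * ∑ p ∈ PD P i, ∑ z ∈ zs i (topOf : P → Tops P) p,
        ((tw i (topOf : P → Tops P) z).card : ℤ) := by
    simp only [mul_sum (PD P i), ← sum_sub_distrib]
    refine Finset.sum_congr rfl fun p _ => ?_
    unfold shr
    ring
  rw [e0, e2, e3, ← d4, r3, s2, s3, s4, s6]
  generalize ∑ t : Tops P, B5 i t = b5 at *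
  generalize ∑ t : Tops P, C6 i t = c6 at *
  generalize ∑ t : Tops P, C8 i t = c8 at *
  generalize ∑ t : Tops P, C10 i t = c10 at *
  generalize ∑ p ∈ PD P i, zc i (topOf : P → Tops P) p = q5 at *
  generalize ∑ p ∈ PD P i, (2 * zc i (topOf : P → Tops P) p * (kc p + nn i p - 3) +
        ∑ z ∈ zs i (topOf : P → Tops P) p, kc z) = q6 at *
  generalize ∑ p ∈ PD P i, (2 * zc i (topOf : P → Tops P) p *
        (rho i (topOf : P → Tops P) 5 p - A3 i (topOf p)) +
          zc i (topOf : P → Tops P) p * (zc i (topOf : P → Tops P) p - 1)) = q8 at *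
  generalize ∑ p ∈ PD P i, (4 * zc i (topOf : P → Tops P) p *
        (rho i (topOf : P → Tops P) 7 p - B5 i (topOf p)) - zc i (topOf : P → Tops P) p -
        2 * (zc i (topOf : P → Tops P) p * (zc i (topOf : P → Tops P) p - 1))) = q10 at *
  generalize ((DB i (topOf : P → Tops P)).card : ℤ) = d at *
  generalize ((N5s i (topOf : P → Tops P)).card : ℤ) = n5 at *
  generalize ∑ z ∈ mx (P := P) i, Wn i (topOf : P → Tops P) 3 z = m3 at *
  linear_combination W.a5 * r5 + 2 * W.a6 * r6 + W.a8 * r8 + W.a10 * r10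

end nj

end Pool.Agent.GaussPoset.Win.Pn
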