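import Pool.Agent.W_448t8_h97.TA
import Pool.Agent.W_448so_h63.FJ

/-!
Window `j - 1` (MP_448cb3_co, case B): the totals (8,3) and (10,4) in terms of the leading
coefficients of the parts and of the crossing configurations.
-/

set_option autoImplicit false

namespace Pool.Agent.GaussPoset.Win.T8

set_option linter.unusedSectionVars false

open Finset I2 So SO

universe u

variable {P : Type u} [Fintype P] [PartialOrder P] [DecidableEq P] {r i : ℕ}

variable {ι : Type*} [DecidableEq ι] {κ : P → ι}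

open Classical in
/-- the sum over the crossing configurations of energy `n` -/
noncomputable def XS (i : ℕ) (κ : P → ι) (n : ℕ) : A :=
  ∑ e ∈ ((univ : Finset P).piAntidiag n).filter (CrO i κ), trm i e

/-- the leading coefficient of the crossing configurations of energy `n` -/
noncomputable def XX (i : ℕ) (κ : P → ι) (n : ℕ) : ℤ :=
  PowerSeries.coeff (lv P i).card (dd ^ kk n * XS i κ n : A)

/-- the leading coefficient of the product of the parts -/
theorem cg_prod (H : Gr P r) (hir : i ≤ r) (hκ : Split (i + 2) κ) {n : ℕ} (hn : 3 ≤ n) :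
    cg n (lv P i).card (∏ a ∈ univ.image κ, VV i (i + 2) κ a) = - XX i κ n := by
  classical
  unfold cg XX XS
  rw [prod_eq H hir hκ, mul_sub, map_sub, coeff_eq_zero_of_dvd, zero_sub]
  have h1 : 1 ≤ kk n := by
    unfold kk
    split_ifs <;> omega
  obtain ⟨m, hm⟩ := Nat.exists_eq_add_of_le h1
  rw [hm, add_comm 1 m, pow_succ (dd : A) (lv P i).card, mul_comm _ (dd : A),
    pow_succ' (dd : A) m, mul_assoc]
  exact mul_dvd_mul_left _ (dvd_mul_of_dvd_right (dvd_sum_trm H hir n) _)

section total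

variable (H : Gr P r) (hi : 1 ≤ i) (hi2 : i + 1 ≤ r) (hg : Good P i)
  (hκ : Split (i + 2) κ) (hb : 1 ≤ (lv P i).card)
  (hP : ∀ a ∈ univ.image κ, P10 (bb i (i + 2) κ a) (VV i (i + 2) κ a))
include H hi hi2 hg hκ hb hP

/-- TOTAL (8,3) at the window `i = j - 1`, case B -/
theorem tot_eight :
    ∑ a ∈ univ.image κ, Q8 (bb i (i + 2) κ a) (VV i (i + 2) κ a) = XX i κ 8 := by
  obtain ⟨-, -, -, -, h8, -⟩ := prod_ten (univ.image κ) (bb i (i + 2) κ) (VV i (i + 2) κ) hP
    (fun a _ => by rw [cg_cf (by omega), cf_zero]; exact eps_VV H (by omega) a)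
  rw [sum_bb hκ] at h8
  rw [← h8]
  unfold Q8
  rw [cg_cf (show (3 : ℕ) ≤ 7 by omega), cf_three, al3_prod H (by omega) hκ,
    cg_prod (n := 8) H (by omega) hκ (by omega)]
  ring

/-- TOTAL (10,4) at the window `i = j - 1`, case B -/
theorem tot_ten :
    ∑ a ∈ univ.image κ, Q10 (bb i (i + 2) κ a) (VV i (i + 2) κ a) =
      ((Z2s i κ).card : ℤ) ^ 2 + 2 * XX i κ 10 := by
  obtain ⟨-, -, -, -, -, h8⟩ := prod_ten (univ.image κ) (bb i (i + 2) κ) (VV i (i + 2) κ) hP
    (fun a _ => by rw [cg_cf (by omega), cf_zero]; exact eps_VV H (by omega) a)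
  rw [sum_bb hκ] at h8
  rw [← h8]
  unfold Q10
  rw [cg_cf (show (5 : ℕ) ≤ 7 by omega), cf5_prod H hi hi2 hg hκ hb,
    cg_prod (n := 10) H (by omega) hκ (by omega)]
  ring

end total

end Pool.Agent.GaussPoset.Win.T8
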