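import Pool.Agent.W_448so_h63.FB

/-!
Window `j - 1` (MP_448cb3_co, case B): algebra of the profiles up to the energy ten, orders
`0,0,0,1,1,2,2,2,3,3,4`; the totals (8,3) and (10,4).
-/

set_option autoImplicit false

namespace Pool.Agent.GaussPoset.Win.T8

set_option linter.unusedSectionVars false

open Finset I2 So

/-- number of deficits allowed at the energy `n` -/
def kk (n : ℕ) : ℕ :=
  if n < 3 then 0 else if n < 5 then 1 else if n < 8 then 2 else if n < 10 then 3 else 4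

/-- profile of a window series up to the energy ten -/
def P10 (b : ℕ) (V : PowerSeries A) : Prop :=
  ∀ n, n ≤ 10 → dd ^ b ∣ dd ^ kk n * PowerSeries.coeff n V

/-- the leading coefficient at the energy `n` -/
noncomputable def cg (n b : ℕ) (V : PowerSeries A) : ℤ :=
  PowerSeries.coeff b (dd ^ kk n * PowerSeries.coeff n V : A)

lemma kk_eq {n : ℕ} (hn : n ≤ 7) : kk n = dk n := by
  unfold kk dk
  split_ifs <;> omega

lemma cg_cf {n : ℕ} (hn : n ≤ 7) (b : ℕ) (V : PowerSeries A) : cg n b V = cf n b V := by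
  unfold cg cf
  rw [kk_eq hn]

lemma P10.p6 {b : ℕ} {V : PowerSeries A} (h : P10 b V) : P6 b V := by
  intro n hn
  rw [← kk_eq (by omega)]
  exact h n (by omega)

lemma kk_add {i j : ℕ} (h : i + j ≤ 10) : kk i + kk j ≤ kk (i + j) := by
  unfold kk
  split_ifs <;> omega

lemma pow_split {i j : ℕ} (h : i + j ≤ 10) (F G : A) :
    dd ^ kk (i + j) * (F * G) =
      dd ^ (kk (i + j) - (kk i + kk j)) * ((dd ^ kk i * F) * (dd ^ kk j * G)) := by
  have h1 := kk_add h
  have h3 : (dd : A) ^ kk (i + j) = dd ^ (kk (i + j) - (kk i + kk j)) * (dd ^ kk i * dd ^ kk j) := by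
    rw [← pow_add, ← pow_add]
    congr 1
    omega
  rw [h3]
  ring

theorem P10.mul {b b' : ℕ} {V V' : PowerSeries A} (h : P10 b V) (h' : P10 b' V') :
    P10 (b + b') (V * V') := by
  intro n hn
  rw [PowerSeries.coeff_mul, Finset.mul_sum]
  refine Finset.dvd_sum ?_
  rintro ⟨i, j⟩ hij
  rw [Finset.HasAntidiagonal.mem_antidiagonal] at hij
  simp only at hij ⊢
  subst hij
  rw [pow_split hn, pow_add]
  exact dvd_mul_of_dvd_right (mul_dvd_mul (h i (by omega)) (h' j (by omega))) _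

theorem cg_mul {b b' : ℕ} {V V' : PowerSeries A} (h : P10 b V) (h' : P10 b' V') {n : ℕ}
    (hn : n ≤ 10) : cg n (b + b') (V * V') =
      ∑ p ∈ Finset.HasAntidiagonal.antidiagonal n,
        if kk p.1 + kk p.2 = kk n then cg p.1 b V * cg p.2 b' V' else 0 := by
  unfold cg
  rw [PowerSeries.coeff_mul n V V', Finset.mul_sum, map_sum]
  refine Finset.sum_congr rfl ?_
  rintro ⟨i, j⟩ hij
  rw [Finset.HasAntidiagonal.mem_antidiagonal] at hij
  simp only at hij ⊢
  subst hij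
  have h1 := kk_add hn
  have h4 := h i (by omega)
  have h5 := h' j (by omega)
  rw [pow_split hn]
  by_cases h6 : kk i + kk j = kk (i + j)
  · rw [if_pos h6, h6, Nat.sub_self, pow_zero, one_mul]
    exact coeff_mul_of_dvd h4 h5
  · rw [if_neg h6]
    apply coeff_eq_zero_of_dvd
    rw [pow_succ', pow_add]
    refine mul_dvd_mul ?_ (mul_dvd_mul h4 h5)
    exact dvd_pow_self _ (by omega)

section mul

variable {b b' : ℕ} {V V' : PowerSeries A} (h : P10 b V) (h' : P10 b' V')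
include h h'

lemma cg0_mul : cg 0 (b + b') (V * V') = cg 0 b V * cg 0 b' V' := by
  rw [cg_cf (by omega), cg_cf (by omega), cg_cf (by omega), cf0_mul h.p6 h'.p6]

lemma cg3_mul : cg 3 (b + b') (V * V') = cg 0 b V * cg 3 b' V' + cg 3 b V * cg 0 b' V' := by
  simp only [cg_cf (show (0 : ℕ) ≤ 7 by omega), cg_cf (show (3 : ℕ) ≤ 7 by omega)]
  exact cf3_mul h.p6 h'.p6

lemma cg5_mul : cg 5 (b + b') (V * V') = cg 0 b V * cg 5 b' V' + cg 5 b V * cg 0 b' V' := by
  simp only [cg_cf (show (0 : ℕ) ≤ 7 by omega), cg_cf (show (5 : ℕ) ≤ 7 by omega)]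
  exact cf5_mul h.p6 h'.p6

lemma cg8_mul : cg 8 (b + b') (V * V') = cg 0 b V * cg 8 b' V' + cg 3 b V * cg 5 b' V' +
    cg 5 b V * cg 3 b' V' + cg 8 b V * cg 0 b' V' := by
  rw [cg_mul h h' (by omega)]
  simp [Finset.Nat.sum_antidiagonal_eq_sum_range_succ_mk, Finset.sum_range_succ, kk]

lemma cg10_mul : cg 10 (b + b') (V * V') = cg 0 b V * cg 10 b' V' + cg 5 b V * cg 5 b' V' +
    cg 10 b V * cg 0 b' V' := by
  rw [cg_mul h h' (by omega)]
  simp [Finset.Nat.sum_antidiagonal_eq_sum_range_succ_mk, Finset.sum_range_succ, kk]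

end mul

/-- the mixed power sum at the energy eight -/
noncomputable def Q8 (b : ℕ) (V : PowerSeries A) : ℤ := cg 3 b V * cg 5 b V - cg 8 b V

/-- the second power sum at the energy ten -/
noncomputable def Q10 (b : ℕ) (V : PowerSeries A) : ℤ := cg 5 b V ^ 2 - 2 * cg 10 b V

lemma P10_one : P10 0 (1 : PowerSeries A) := by
  intro n hn
  rw [pow_zero]
  exact one_dvd _

/-- the product over the components -/
theorem prod_ten {ι : Type*} (s : Finset ι) (b : ι → ℕ) (V : ι → PowerSeries A)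
    (h : ∀ c ∈ s, P10 (b c) (V c)) (h1 : ∀ c ∈ s, cg 0 (b c) (V c) = 1) :
    P10 (∑ c ∈ s, b c) (∏ c ∈ s, V c) ∧ cg 0 (∑ c ∈ s, b c) (∏ c ∈ s, V c) = 1 ∧
    cg 3 (∑ c ∈ s, b c) (∏ c ∈ s, V c) = ∑ c ∈ s, cg 3 (b c) (V c) ∧
    cg 5 (∑ c ∈ s, b c) (∏ c ∈ s, V c) = ∑ c ∈ s, cg 5 (b c) (V c) ∧
    Q8 (∑ c ∈ s, b c) (∏ c ∈ s, V c) = ∑ c ∈ s, Q8 (b c) (V c) ∧
    Q10 (∑ c ∈ s, b c) (∏ c ∈ s, V c) = ∑ c ∈ s, Q10 (b c) (V c) := by
  classical
  induction s using Finset.induction_on with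
  | empty =>
    simp only [Finset.sum_empty, Finset.prod_empty]
    refine ⟨P10_one, ?_, ?_, ?_, ?_, ?_⟩
    · simp [cg, kk]
    · simp [cg, kk, PowerSeries.coeff_one]
    · simp [cg, kk, PowerSeries.coeff_one]
    · simp [Q8, cg, kk, PowerSeries.coeff_one]
    · simp [Q10, cg, kk, PowerSeries.coeff_one]
  | insert a s ha ih =>
    obtain ⟨i1, i2, i4, i5, i6, i7⟩ := ih (fun c hc => h c (Finset.mem_insert_of_mem hc))
      (fun c hc => h1 c (Finset.mem_insert_of_mem hc))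
    have ha1 := h a (Finset.mem_insert_self a s)
    have ha2 := h1 a (Finset.mem_insert_self a s)
    simp only [Finset.sum_insert ha, Finset.prod_insert ha]
    rw [← i4, ← i5, ← i6, ← i7]
    refine ⟨ha1.mul i1, ?_, ?_, ?_, ?_, ?_⟩
    · rw [cg0_mul ha1 i1, ha2, i2, one_mul]
    · rw [cg3_mul ha1 i1, ha2, i2]; ring
    · rw [cg5_mul ha1 i1, ha2, i2]; ring
    · unfold Q8
      rw [cg3_mul ha1 i1, cg8_mul ha1 i1, cg5_mul ha1 i1, ha2, i2]
      ring
    · unfold Q10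
      rw [cg10_mul ha1 i1, cg5_mul ha1 i1, ha2, i2]
      ring

end Pool.Agent.GaussPoset.Win.T8
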