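import Pool.Agent.W_448pn_h63.PoC

/-!
Window `j - 1` (MP_448cb3_co, case B): regrouping of the crossing sums to the pendants.
-/

set_option autoImplicit false

namespace Pool.Agent.GaussPoset.Win.Pn

set_option linter.unusedSectionVars false

open Finset W4 Wd
open Pool.Agent.GaussPoset.Win.SO (con PN on mem_PN vp)
open Pool.Agent.GaussPoset.Win.I2 (bb VV)
open Pool.Agent.GaussPoset.Win.So (N5s Z2s mem_Z2s env chs nLs nUs Sv Cn TWs mem_TWs)

universe u

variable {P : Type u} [Fintype P] [PartialOrder P] [DecidableEq P] {r i : ℕ}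
  {psi : P → P} {C : Finset P} {p p' y y' w z v x : P}

variable {ι : Type*} [DecidableEq ι] {κ : P → ι}

open Classical in
/-- the joins of two pendants through `p` -/
noncomputable def zs (i : ℕ) (κ : P → ι) (p : P) : Finset P :=
  (Z2s i κ).filter (fun z => p ∈ uc z)

lemma mem_zs : z ∈ zs i κ p ↔ z ∈ Z2s i κ ∧ p ∈ uc z := by
  classical
  unfold zs
  rw [mem_filter]

/-- the number of joins of two pendants through `p` -/
noncomputable def zc (i : ℕ) (κ : P → ι) (p : P) : ℤ := ((zs i κ p).card : ℤ)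

/-- the elements with the only upper cover `x` -/
noncomputable def ks (x : P) : Finset P := univ.filter (fun y => uc y = {x})

lemma mem_ks : y ∈ ks x ↔ uc y = {x} := by
  unfold ks
  simp

/-- the number of the elements with the only upper cover `x` -/
noncomputable def kc (x : P) : ℤ := ((ks x).card : ℤ)

open Classical in
/-- near lower elements which meet the sites of `p` -/
noncomputable def nLp (i : ℕ) (p : P) : Finset P :=
  univ.filter (fun w => lev w = i + 1 ∧ ¬ Disjoint (uc w) (sit i p))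

open Classical in
/-- near upper elements which meet the sites of `p` -/
noncomputable def nUp (i : ℕ) (p : P) : Finset P :=
  univ.filter (fun w => lev w + 1 = i ∧ ¬ Disjoint (dc w) (sit i p))

lemma mem_nLp : w ∈ nLp i p ↔ lev w = i + 1 ∧ ¬ Disjoint (uc w) (sit i p) := by
  classical
  unfold nLp
  simp

lemma mem_nUp : w ∈ nUp i p ↔ lev w + 1 = i ∧ ¬ Disjoint (dc w) (sit i p) := by
  classical
  unfold nUp
  simp

/-- the number of near elements which meet the sites of `p` -/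
noncomputable def nn (i : ℕ) (p : P) : ℤ := ((nLp i p).card : ℤ) + (nUp i p).card

/-- the other joins with the covers of `v` -/
noncomputable def tw (i : ℕ) (κ : P → ι) (v : P) : Finset P :=
  (Z2s i κ).filter (fun x => x ≠ v ∧ uc x = uc v)

lemma mem_tw : x ∈ tw i κ v ↔ x ∈ Z2s i κ ∧ x ≠ v ∧ uc x = uc v := by
  unfold tw
  rw [mem_filter]

section exch

variable (H : Gr P r) (hκ : Split (i + 2) κ)
include H hκ

/-- exchange of the sums over joins and pendants -/
theorem sum_zs (f : P → P → ℤ) : ∑ z ∈ Z2s i κ, ∑ p ∈ uc z, f z p =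
    ∑ p ∈ PD P i, ∑ z ∈ zs i κ p, f z p := by
  refine Finset.sum_comm' ?_
  intro z p
  rw [mem_zs]
  constructor
  · rintro ⟨h1, h2⟩
    exact ⟨⟨h1, h2⟩, (Z2s_cov H hκ h1 h2).1⟩
  · rintro ⟨h1, -⟩
    exact h1

/-- exchange of the sums, functions of the pendant -/
theorem sum_zc (f : P → ℤ) : ∑ z ∈ Z2s i κ, ∑ p ∈ uc z, f p =
    ∑ p ∈ PD P i, zc i κ p * f p := by
  rw [sum_zs H hκ]
  refine Finset.sum_congr rfl fun p _ => ?_
  rw [sum_const, nsmul_eq_mul]
  rfl

lemma Z2s_pair (hz : z ∈ Z2s i κ) : ∃ p p' y y', So.ZD i κ z p p' y y' ∧ uc z = {p, p'} ∧ p ≠ p' := by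
  obtain ⟨p, p', y, y', D⟩ := So.Z2s_ZD H hκ hz
  refine ⟨p, p', y, y', D, D.cov, ?_⟩
  rintro rfl
  exact D.ne rfl

/-- the number of joins -/
theorem two_Z2s : 2 * ((Z2s i κ).card : ℤ) = ∑ p ∈ PD P i, zc i κ p := by
  have h1 := sum_zc H hκ (fun _ => 1)
  simp only [mul_one] at h1
  rw [← h1]
  have h2 : ∀ z ∈ Z2s i κ, ∑ _p ∈ uc z, (1 : ℤ) = 2 := by
    intro z hz
    obtain ⟨p, p', y, y', D, hu, hne⟩ := Z2s_pair H hκ hz
    rw [hu, Finset.sum_pair hne]
    norm_num
  rw [Finset.sum_congr rfl h2, sum_const, nsmul_eq_mul, mul_comm]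

/-- functions of the join -/
theorem two_sum (g : P → ℤ) : 2 * ∑ z ∈ Z2s i κ, g z = ∑ p ∈ PD P i, ∑ z ∈ zs i κ p, g z := by
  rw [← sum_zs H hκ (fun z _ => g z), mul_sum]
  refine Finset.sum_congr rfl fun z hz => ?_
  obtain ⟨p, p', y, y', D, hu, hne⟩ := Z2s_pair H hκ hz
  rw [hu, Finset.sum_pair hne]
  ring

/-- the crossing contribution of the joins of two pendants -/
theorem sum_Wn (m : ℕ) : ∑ z ∈ X3 i κ, Wn i κ m z =
    ∑ p ∈ PD P i, zc i κ p * (rho i κ (2 * m - 1) p - sg i κ (2 * m - 3) (κ p)) +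
      ∑ z ∈ X3 i κ \ Z2s i κ, Wn i κ m z := by
  have hsub : Z2s i κ ⊆ X3 i κ := fun z hz => ((X3_Z2s H hκ).1 hz).1
  rw [← Finset.sum_sdiff hsub, add_comm]
  congr 1
  rw [← sum_zc H hκ]
  refine Finset.sum_congr rfl fun z hz => ?_
  have hq := ((X3_Z2s H hκ).1 hz).2
  obtain ⟨p, p', y, y', D, hu, hne⟩ := Z2s_pair H hκ hz
  have q1 := hq p (by rw [hu]; simp)
  have q2 := hq p' (by rw [hu]; simp)
  rw [Wn_pair hu hne, hu, Finset.sum_pair hne, if_pos q1, if_pos q2, if_pos ⟨q1, q2⟩]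
  ring

/-- a mixed join -/
theorem Wn_mixed (hz : z ∈ X3 i κ) (hn : z ∉ Z2s i κ) (m : ℕ) : Wn i κ m z = 0 ∨
    ∃ p, p ∈ uc z ∧ p ∉ PD P i ∧ Wn i κ m z = rho i κ (2 * m - 1) p := by
  obtain ⟨h1, h2⟩ := mem_X3.1 hz
  have hcov : ∀ y, z ⋖ y → y ∈ cuni (i + 2) κ := by
    intro y hy
    have := lev_uc H (mem_uc.2 hy)
    exact le_mem_cuni hκ (by omega)
  obtain ⟨p, p', a, a', huc, hpp, ha, ha', haa, hpa, hpa'⟩ :=
    z1s_covers H hκ (mem_z1s.2 ⟨h2, hcov⟩)
  by_cases q : p ∈ PD P i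
  · by_cases q' : p' ∈ PD P i
    · exfalso
      apply hn
      rw [X3_Z2s H hκ]
      refine ⟨hz, ?_⟩
      intro w hw
      rw [huc, mem_insert, mem_singleton] at hw
      rcases hw with rfl | rfl
      · exact q
      · exact q'
    · right
      refine ⟨p', by rw [huc]; simp, q', ?_⟩
      rw [Wn_pair huc hpp, if_neg q', if_pos q, if_neg (fun h => q' h.2)]
      ring
  · by_cases q' : p' ∈ PD P i
    · right
      refine ⟨p, by rw [huc]; simp, q, ?_⟩
      rw [Wn_pair huc hpp, if_neg q, if_pos q', if_neg (fun h => q h.1)]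
      ring
    · left
      rw [Wn_pair huc hpp, if_neg q, if_neg q', if_neg (fun h => q h.1)]
      ring

end exch

end Pool.Agent.GaussPoset.Win.Pn
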