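import Pool.Agent.W_448t8_h97.TC

/-!
Window `j - 1` (MP_448cb3_co, case B): the environment number of a join of two pendants as a sum over
the pendants; the pairs of joins.
-/

set_option autoImplicit false

namespace Pool.Agent.GaussPoset.Win.Pn

set_option linter.unusedSectionVars false

open Finset W4 Wd
open Pool.Agent.GaussPoset.Win.SO (con PN on mem_PN vp)
open Pool.Agent.GaussPoset.Win.I2 (bb VV)
open Pool.Agent.GaussPoset.Win.So (N5s Z2s mem_Z2s env chs nLs nUs Sv Cn TWs mem_TWs)

universe u

variable {P : Type u} [Fintype P] [PartialOrder P] [DecidableEq P] {r i : ℕ}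
  {psi : P → P} {C : Finset P} {p p' y y' w z v x : P}

variable {ι : Type*} [DecidableEq ι] {κ : P → ι}

section env

variable (H : Gr P r) (hκ : Split (i + 2) κ)
include H hκ

lemma ZD_sit (D : So.ZD i κ v p p' y y') : sit i p = uc y :=
  sit_PDs H (mem_PD.2 ⟨D.lp H, by rw [D.hp, card_singleton], y, D.yp, D.c⟩) D.hp

lemma ZD_sit' (D : So.ZD i κ v p p' y y') : sit i p' = uc y' :=
  sit_PDs H (mem_PD.2 ⟨D.lp' H, by rw [D.hp', card_singleton], y', D.yp', D.c'⟩) D.hp'

lemma ZD_kap (D : So.ZD i κ v p p' y y') {s : P} (hs : s ∈ uc y) : κ s = κ p := by
  have l1 := D.lp H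
  have l2 := D.ly H
  have h1 : κ y = κ s := hκ (mem_uc.1 hs) (by omega)
  have h2 : κ p = κ y := hκ D.yp (by omega)
  rw [h2, h1]

lemma ZD_kap' (D : So.ZD i κ v p p' y y') {s : P} (hs : s ∈ uc y') : κ s = κ p' := by
  have l1 := D.lp' H
  have l2 := D.ly' H
  have h1 : κ y' = κ s := hκ (mem_uc.1 hs) (by omega)
  have h2 : κ p' = κ y' := hκ D.yp' (by omega)
  rw [h2, h1]

lemma nLs_split (D : So.ZD i κ v p p' y y') :
    ((nLs i v).card : ℤ) = (nLp i p).card + (nLp i p').card := by
  classical
  have h1 : nLs i v = nLp i p ∪ nLp i p' := by
    ext w
    rw [mem_union, mem_nLp, mem_nLp, ZD_sit H hκ D, ZD_sit' H hκ D]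
    unfold So.nLs
    rw [mem_filter, D.sv H, disjoint_union_right]
    simp only [mem_univ, true_and]
    tauto
  rw [h1, card_union_of_disjoint, Nat.cast_add]
  rw [disjoint_left]
  intro w hw hw'
  rw [mem_nLp, ZD_sit H hκ D] at hw
  rw [mem_nLp, ZD_sit' H hκ D] at hw'
  obtain ⟨l1, h2⟩ := hw
  obtain ⟨-, h3⟩ := hw'
  obtain ⟨s, hs1, hs2⟩ := not_disjoint_iff.1 h2
  obtain ⟨s', hs1', hs2'⟩ := not_disjoint_iff.1 h3
  have k1 : κ w = κ s := hκ (mem_uc.1 hs1) (by omega)
  have k2 : κ w = κ s' := hκ (mem_uc.1 hs1') (by omega)
  rw [ZD_kap H hκ D hs2] at k1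
  rw [ZD_kap' H hκ D hs2'] at k2
  exact D.ne (k1.symm.trans k2)

lemma nUs_split (D : So.ZD i κ v p p' y y') :
    ((nUs i v).card : ℤ) = (nUp i p).card + (nUp i p').card := by
  classical
  have h1 : nUs i v = nUp i p ∪ nUp i p' := by
    ext w
    rw [mem_union, mem_nUp, mem_nUp, ZD_sit H hκ D, ZD_sit' H hκ D]
    unfold So.nUs
    rw [mem_filter, D.sv H, disjoint_union_right]
    simp only [mem_univ, true_and]
    tauto
  rw [h1, card_union_of_disjoint, Nat.cast_add]
  rw [disjoint_left]
  intro w hw hw'
  rw [mem_nUp, ZD_sit H hκ D] at hw
  rw [mem_nUp, ZD_sit' H hκ D] at hw'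
  obtain ⟨l1, h2⟩ := hw
  obtain ⟨-, h3⟩ := hw'
  obtain ⟨s, hs1, hs2⟩ := not_disjoint_iff.1 h2
  obtain ⟨s', hs1', hs2'⟩ := not_disjoint_iff.1 h3
  have a1 := lev_dc H hs1
  have a2 := lev_dc H hs1'
  have k1 : κ s = κ w := hκ (mem_dc.1 hs1) (by omega)
  have k2 : κ s' = κ w := hκ (mem_dc.1 hs1') (by omega)
  rw [ZD_kap H hκ D hs2] at k1
  rw [ZD_kap' H hκ D hs2'] at k2
  exact D.ne (k1.trans k2.symm)

/-- the private elements of the environment -/
lemma chs_split (hone : ∀ p ∈ PD P i, ∀ q ∈ PD P i, κ p = κ q → p = q)
    (D : So.ZD i κ v p p' y y') :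
    ((chs i v).card : ℤ) = kc p + kc p' + kc v + (tw i κ v).card := by
  classical
  have lv := D.lv
  have lp := D.lp H
  have lp' := D.lp' H
  have ly := D.ly H
  have ly' := D.ly' H
  have huv : uc v = {p, p'} := D.cov
  have hpp : p ≠ p' := by
    rintro rfl
    exact D.ne rfl
  have hcn := D.cn H
  have hpD : p ∈ PD P i := mem_PD.2 ⟨lp, by rw [D.hp, card_singleton], y, D.yp, D.c⟩
  have hpD' : p' ∈ PD P i := mem_PD.2 ⟨lp', by rw [D.hp', card_singleton], y', D.yp', D.c'⟩
  have h1 : chs i v = ((ks p ∪ ks p') ∪ ks v) ∪ tw i κ v := by
    ext x
    rw [mem_union, mem_union, mem_union, mem_ks, mem_ks, mem_ks, mem_tw]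
    unfold So.chs
    rw [mem_filter, hcn]
    simp only [mem_univ, true_and]
    constructor
    · rintro ⟨hl, hx, hsub⟩
      obtain ⟨a, ha⟩ := uc_nonempty H (x := x) (by omega)
      have la := lev_uc H ha
      have hlt : lev x ≤ i + 4 := by
        by_contra hc
        have := hsub ha
        simp only [mem_insert, mem_singleton] at this
        rcases this with rfl | rfl | rfl | rfl | rfl <;> omega
      have hcase : lev x = i + 2 ∨ lev x = i + 3 ∨ lev x = i + 4 := by omega
      rcases hcase with h2 | h2 | h2
      · -- another pendant
        exfalso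
        have hin : ∀ b ∈ uc x, b = y ∨ b = y' := by
          intro b hb
          have lb := lev_uc H hb
          have := hsub hb
          simp only [mem_insert, mem_singleton] at this
          rcases this with rfl | rfl | rfl | rfl | rfl
          · omega
          · omega
          · omega
          · exact Or.inl rfl
          · exact Or.inr rfl
        have hky : κ y = κ p := (hκ D.yp (by omega)).symm
        have hky' : κ y' = κ p' := (hκ D.yp' (by omega)).symm
        have hkx : ∀ b ∈ uc x, κ x = κ b := fun b hb => hκ (mem_uc.1 hb) (by omega)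
        rcases hin a ha with rfl | rfl
        · have hu : uc x = {a} := by
            ext b
            rw [mem_singleton]
            constructor
            · intro hb
              rcases hin b hb with h3 | h3
              · exact h3
              · exfalso
                have k1 := hkx a ha
                have k2 := hkx b hb
                rw [h3] at k2
                exact D.ne (by rw [← hky, ← k1, k2, hky'])
            · rintro rfl
              exact ha
          have hxD : x ∈ PD P i := mem_PD.2 ⟨h2, by rw [hu, card_singleton], a, mem_uc.1 ha, D.c⟩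
          have := hone x hxD p hpD (by rw [hkx a ha, hky])
          exact hx (by rw [this]; simp)
        · have hu : uc x = {a} := by
            ext b
            rw [mem_singleton]
            constructor
            · intro hb
              rcases hin b hb with h3 | h3
              · exfalso
                have k1 := hkx a ha
                have k2 := hkx b hb
                rw [h3] at k2
                exact D.ne (by rw [← hky', ← k1, k2, hky])
              · exact h3
            · rintro rfl
              exact ha
          have hxD : x ∈ PD P i := mem_PD.2 ⟨h2, by rw [hu, card_singleton], a, mem_uc.1 ha, D.c'⟩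
          have := hone x hxD p' hpD' (by rw [hkx a ha, hky'])
          exact hx (by rw [this]; simp)
      · -- over the pendants
        have hin : ∀ b ∈ uc x, b = p ∨ b = p' := by
          intro b hb
          have lb := lev_uc H hb
          have := hsub hb
          simp only [mem_insert, mem_singleton] at this
          rcases this with rfl | rfl | rfl | rfl | rfl
          · omega
          · exact Or.inl rfl
          · exact Or.inr rfl
          · omega
          · omega
        by_cases q : p ∈ uc x
        · by_cases q' : p' ∈ uc x
          · right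
            have hu : uc x = {p, p'} := by
              ext b
              rw [mem_insert, mem_singleton]
              constructor
              · exact hin b
              · rintro (rfl | rfl)
                · exact q
                · exact q'
            have hxv : x ≠ v := by
              rintro rfl
              exact hx (by simp)
            refine ⟨?_, hxv, by rw [hu, huv]⟩
            rw [X3_Z2s H hκ]
            refine ⟨mem_X3.2 ⟨h2, ?_⟩, ?_⟩
            · intro hxc
              unfold cuni at hxc
              rw [mem_biUnion] at hxc
              obtain ⟨a', -, hxa⟩ := hxc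
              have e1 := mem_cext.1 hxa p (mem_uc.1 q).le (by omega)
              have e2 := mem_cext.1 hxa p' (mem_uc.1 q').le (by omega)
              exact D.ne (e1.trans e2.symm)
            · intro b hb
              rcases hin b hb with rfl | rfl
              · exact hpD
              · exact hpD'
          · left; left; left
            ext b
            rw [mem_singleton]
            constructor
            · intro hb
              rcases hin b hb with h3 | h3
              · exact h3
              · rw [h3] at hb; exact absurd hb q'
            · rintro rfl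
              exact q
        · left; left; right
          ext b
          rw [mem_singleton]
          constructor
          · intro hb
            rcases hin b hb with h3 | h3
            · rw [h3] at hb; exact absurd hb q
            · exact h3
          · rintro rfl
            rcases hin a ha with h3 | h3
            · rw [h3] at ha; exact absurd ha q
            · rw [h3] at ha; exact ha
      · left; right
        ext b
        rw [mem_singleton]
        have hin : ∀ b ∈ uc x, b = v := by
          intro b hb
          have lb := lev_uc H hb
          have := hsub hb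
          simp only [mem_insert, mem_singleton] at this
          rcases this with rfl | rfl | rfl | rfl | rfl
          · rfl
          · omega
          · omega
          · omega
          · omega
        constructor
        · exact hin b
        · rintro rfl
          rw [← hin a ha]
          exact ha
    · have base : ∀ {b : P}, x ≠ v → b ∈ uc x → (b = p ∨ b = p') → i + 1 < lev x ∧
          ¬ (x = v ∨ x = p ∨ x = p' ∨ x = y ∨ x = y') := by
        intro b hxv hb hbp
        have lx := lev_uc H hb
        have lb : lev b = i + 2 := by
          rcases hbp with rfl | rfl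
          · exact lp
          · exact lp'
        refine ⟨by omega, ?_⟩
        rintro (rfl | rfl | rfl | rfl | rfl)
        · exact hxv rfl
        · omega
        · omega
        · omega
        · omega
      rintro (((hu | hu) | hu) | ⟨hz, hne, hu⟩)
      · have hxv : x ≠ v := by
          rintro rfl
          rw [huv] at hu
          have := card_pair hpp
          rw [hu, card_singleton] at this
          omega
        have b1 := base hxv (b := p) (by rw [hu]; simp) (Or.inl rfl)
        refine ⟨b1.1, ?_, ?_⟩
        · simpa only [mem_insert, mem_singleton] using b1.2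
        · rw [hu]; simp
      · have hxv : x ≠ v := by
          rintro rfl
          rw [huv] at hu
          have := card_pair hpp
          rw [hu, card_singleton] at this
          omega
        have b1 := base hxv (b := p') (by rw [hu]; simp) (Or.inr rfl)
        refine ⟨b1.1, ?_, ?_⟩
        · simpa only [mem_insert, mem_singleton] using b1.2
        · rw [hu]; simp
      · have lx := lev_uc H (show v ∈ uc x by rw [hu]; simp)
        refine ⟨by omega, ?_, ?_⟩
        · simp only [mem_insert, mem_singleton]
          rintro (rfl | rfl | rfl | rfl | rfl) <;> omega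
        · rw [hu]; simp
      · have b1 := base hne (b := p) (by rw [hu, huv]; simp) (Or.inl rfl)
        refine ⟨b1.1, ?_, ?_⟩
        · simpa only [mem_insert, mem_singleton] using b1.2
        · rw [hu, huv]
          intro b hb
          rw [mem_insert, mem_singleton] at hb
          rcases hb with rfl | rfl <;> simp
  rw [h1, card_union_of_disjoint, card_union_of_disjoint, card_union_of_disjoint]
  · unfold kc
    push_cast
    ring
  · rw [disjoint_left]
    intro x hx hx'
    rw [mem_ks] at hx hx'
    rw [hx] at hx'
    exact hpp (singleton_injective hx')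
  · rw [disjoint_left]
    intro x hx hx'
    rw [mem_union, mem_ks, mem_ks] at hx
    rw [mem_ks] at hx'
    rcases hx with hx | hx
    · rw [hx] at hx'
      have := singleton_injective hx'
      rw [this] at lp
      omega
    · rw [hx] at hx'
      have := singleton_injective hx'
      rw [this] at lp'
      omega
  · rw [disjoint_left]
    intro x hx hx'
    rw [mem_union, mem_union, mem_ks, mem_ks, mem_ks] at hx
    obtain ⟨-, -, hu⟩ := mem_tw.1 hx'
    have h2 : (uc x).card = 2 := by rw [hu, huv, card_pair hpp]
    rcases hx with (hx | hx) | hx <;> rw [hx, card_singleton] at h2 <;> omega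

/-- THE ENVIRONMENT NUMBER -/
theorem env_split (hone : ∀ p ∈ PD P i, ∀ q ∈ PD P i, κ p = κ q → p = q) (hv : v ∈ Z2s i κ) :
    env i v = ∑ p ∈ uc v, (kc p + nn i p - 3) + kc v + (tw i κ v).card := by
  obtain ⟨p, p', y, y', D, hu, hne⟩ := Z2s_pair H hκ hv
  rw [hu, Finset.sum_pair hne]
  unfold So.env
  rw [chs_split H hκ hone D, nLs_split H hκ D, nUs_split H hκ D]
  unfold nn
  ring

/-- twins -/
lemma sum_tw : ∑ v ∈ Z2s i κ, ((tw i κ v).card : ℤ) = ((TWs i κ).card : ℤ) := by
  classical
  rw [← Nat.cast_sum]
  congr 1
  have : TWs i κ = (Z2s i κ).biUnion (fun v => (tw i κ v).image (fun x => (v, x))) := by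
    ext ⟨a, b⟩
    rw [mem_TWs, mem_biUnion]
    constructor
    · rintro ⟨h1, h2, h3, h4⟩
      exact ⟨a, h1, mem_image.2 ⟨b, mem_tw.2 ⟨h2, Ne.symm h3, h4.symm⟩, rfl⟩⟩
    · rintro ⟨v, hv, h⟩
      obtain ⟨x, hx, he⟩ := mem_image.1 h
      obtain ⟨h1, h2, h3⟩ := mem_tw.1 hx
      simp only [Prod.mk.injEq] at he
      obtain ⟨rfl, rfl⟩ := he
      exact ⟨hv, h1, Ne.symm h2, h3.symm⟩
  rw [this, card_biUnion]
  · refine Finset.sum_congr rfl fun v _ => ?_
    rw [card_image_of_injective]
    intro a b hab
    simpa using hab
  · intro v _ v' _ hne
    simp only [Function.onFun]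
    rw [disjoint_left]
    intro q hq hq'
    obtain ⟨x, -, rfl⟩ := mem_image.1 hq
    obtain ⟨x', -, he⟩ := mem_image.1 hq'
    simp only [Prod.mk.injEq] at he
    exact hne he.1.symm

/-- THE SUM OF THE ENVIRONMENT NUMBERS -/
theorem sum_env (hone : ∀ p ∈ PD P i, ∀ q ∈ PD P i, κ p = κ q → p = q) :
    ∑ v ∈ Z2s i κ, env i v = ∑ p ∈ PD P i, zc i κ p * (kc p + nn i p - 3) +
      ∑ v ∈ Z2s i κ, kc v + ((TWs i κ).card : ℤ) := by
  rw [← sum_zc H hκ, ← sum_tw H hκ, ← sum_add_distrib, ← sum_add_distrib]
  exact Finset.sum_congr rfl fun v hv => env_split H hκ hone hv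

end env

end Pool.Agent.GaussPoset.Win.Pn
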