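import Pool.Agent.W_448t8_h97.TD

/-!
Window `j - 1` (MP_448cb3_co, case B): the pairs of joins of two pendants.
-/

set_option autoImplicit false

namespace Pool.Agent.GaussPoset.Win.Pn

set_option linter.unusedSectionVars false

open Finset W4 Wd
open Pool.Agent.GaussPoset.Win.SO (con PN on mem_PN vp)
open Pool.Agent.GaussPoset.Win.I2 (bb VV)
open Pool.Agent.GaussPoset.Win.So (N5s Z2s mem_Z2s env chs nLs nUs Sv Cn TWs mem_TWs)

universe u

variable {P : Type u} [Fintype P] [PartialOrder P] [DecidableEq P] {r i j : ℕ}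
  {psi : P → P} {C : Finset P} {p p' y y' w z v x : P}

/-- ordered and unordered pairs -/
lemma two_pairs {α : Type*} [DecidableEq α] (S : Finset α) (Q : Finset α → Prop)
    [DecidablePred Q] : (S.offDiag.filter (fun q => Q {q.1, q.2})).card =
      2 * ((S.powersetCard 2).filter Q).card := by
  classical
  have hm : ∀ q ∈ S.offDiag.filter (fun q => Q {q.1, q.2}),
      ({q.1, q.2} : Finset α) ∈ (S.powersetCard 2).filter Q := by
    intro q hq
    rw [mem_filter, mem_offDiag] at hq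
    rw [mem_filter, mem_powersetCard]
    refine ⟨⟨?_, card_pair hq.1.2.2⟩, hq.2⟩
    intro a ha
    rw [mem_insert, mem_singleton] at ha
    rcases ha with rfl | rfl
    · exact hq.1.1
    · exact hq.1.2.1
  rw [Finset.card_eq_sum_card_fiberwise (f := fun q : α × α => ({q.1, q.2} : Finset α))
    (t := (S.powersetCard 2).filter Q) hm]
  rw [Finset.sum_const_nat (m := 2), mul_comm]
  intro s hs
  rw [mem_filter, mem_powersetCard] at hs
  obtain ⟨⟨h1, h2⟩, h3⟩ := hs
  obtain ⟨a, b, hab, rfl⟩ := card_eq_two.1 h2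
  have ha : a ∈ S := h1 (by simp)
  have hb : b ∈ S := h1 (by simp)
  have : (S.offDiag.filter (fun q => Q {q.1, q.2})).filter
      (fun q : α × α => ({q.1, q.2} : Finset α) = {a, b}) = {(a, b), (b, a)} := by
    ext ⟨c, d⟩
    rw [mem_filter, mem_filter, mem_offDiag, mem_insert, mem_singleton, Prod.mk.injEq,
      Prod.mk.injEq]
    simp only
    constructor
    · rintro ⟨⟨⟨k1, k2, k3⟩, -⟩, k4⟩
      have e1 : c ∈ ({a, b} : Finset α) := by rw [← k4]; simp
      have e2 : d ∈ ({a, b} : Finset α) := by rw [← k4]; simp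
      rw [mem_insert, mem_singleton] at e1 e2
      rcases e1 with rfl | rfl <;> rcases e2 with rfl | rfl
      · exact absurd rfl k3
      · exact Or.inl ⟨rfl, rfl⟩
      · exact Or.inr ⟨rfl, rfl⟩
      · exact absurd rfl k3
    · rintro (⟨rfl, rfl⟩ | ⟨rfl, rfl⟩)
      · exact ⟨⟨⟨ha, hb, hab⟩, h3⟩, rfl⟩
      · refine ⟨⟨⟨hb, ha, hab.symm⟩, ?_⟩, pair_comm _ _⟩
        rw [pair_comm]
        exact h3
  rw [this, card_pair]
  intro h
  exact hab (Prod.mk.injEq .. ▸ h).1

variable {ι : Type*} [DecidableEq ι] {κ : P → ι}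

section pr

variable (H : Gr P r) (hκ : Split (i + 2) κ)
include H hκ

/-- the pairs of joins through a pendant -/
theorem sum_offDiag : ∑ p ∈ PD P i, zc i κ p * (zc i κ p - 1) =
    ∑ q ∈ (Z2s i κ).offDiag, ((uc q.1 ∩ uc q.2).card : ℤ) := by
  classical
  have h1 : ∀ q ∈ (Z2s i κ).offDiag, ((uc q.1 ∩ uc q.2).card : ℤ) =
      ∑ p ∈ uc q.1 ∩ uc q.2, (1 : ℤ) := by
    intro q _
    rw [sum_const, nsmul_eq_mul, mul_one]
  rw [Finset.sum_congr rfl h1]
  have h2 : ∑ q ∈ (Z2s i κ).offDiag, ∑ p ∈ uc q.1 ∩ uc q.2, (1 : ℤ) =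
      ∑ p ∈ PD P i, ∑ q ∈ (zs i κ p).offDiag, (1 : ℤ) := by
    refine Finset.sum_comm' ?_
    intro q p
    rw [mem_offDiag, mem_offDiag, mem_zs, mem_zs, mem_inter]
    constructor
    · rintro ⟨⟨h1, h2, h3⟩, h4, h5⟩
      exact ⟨⟨⟨h1, h4⟩, ⟨h2, h5⟩, h3⟩, (Z2s_cov H hκ h1 h4).1⟩
    · rintro ⟨⟨⟨h1, h4⟩, ⟨h2, h5⟩, h3⟩, -⟩
      exact ⟨⟨h1, h2, h3⟩, h4, h5⟩
  rw [h2]
  refine Finset.sum_congr rfl fun p _ => ?_
  rw [sum_const, nsmul_eq_mul, mul_one, offDiag_card]
  have h3 : (zs i κ p).card ≤ (zs i κ p).card * (zs i κ p).card := Nat.le_mul_self _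
  rw [Nat.cast_sub h3]
  unfold zc
  push_cast
  ring

lemma uni_card (hz : z ∈ Z2s i κ) (hw : w ∈ Z2s i κ) :
    (({z, w} : Finset P).biUnion uc).card + (uc z ∩ uc w).card = 4 := by
  obtain ⟨p, p', y, y', D, hu, hne⟩ := Z2s_pair H hκ hz
  obtain ⟨q, q', x, x', D', hu', hne'⟩ := Z2s_pair H hκ hw
  rw [biUnion_insert, singleton_biUnion, card_union_add_card_inter, hu, hu', card_pair hne,
    card_pair hne']

/-- two joins have at most two common covers -/
theorem pairs_eq : ∑ q ∈ (Z2s i κ).offDiag, ((uc q.1 ∩ uc q.2).card : ℤ) =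
    2 * ((((Z2s i κ).powersetCard 2).filter (fun s => (s.biUnion uc).card = 3)).card : ℤ) +
      4 * ((((Z2s i κ).powersetCard 2).filter (fun s => (s.biUnion uc).card = 2)).card : ℤ) := by
  classical
  have h3 := two_pairs (Z2s i κ) (fun s => (s.biUnion uc).card = 3)
  have h2 := two_pairs (Z2s i κ) (fun s => (s.biUnion uc).card = 2)
  have key : ∀ q ∈ (Z2s i κ).offDiag, ((uc q.1 ∩ uc q.2).card : ℤ) =
      (if (({q.1, q.2} : Finset P).biUnion uc).card = 3 then 1 else 0) +
        2 * (if (({q.1, q.2} : Finset P).biUnion uc).card = 2 then 1 else 0) := by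
    intro q hq
    rw [mem_offDiag] at hq
    have h4 := uni_card H hκ hq.1 hq.2.1
    have h5 : (uc q.1 ∩ uc q.2).card ≤ 2 := by
      obtain ⟨p, p', y, y', D, hu, hne⟩ := Z2s_pair H hκ hq.1
      refine (card_le_card inter_subset_left).trans ?_
      rw [hu, card_pair hne]
    have h6 : (uc q.1 ∩ uc q.2).card = 0 ∨ (uc q.1 ∩ uc q.2).card = 1 ∨
      (uc q.1 ∩ uc q.2).card = 2 := by omega
    rcases h6 with h6 | h6 | h6
    · rw [h6, if_neg (by omega), if_neg (by omega)]; norm_num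
    · rw [h6, if_pos (by omega), if_neg (by omega)]; norm_num
    · rw [h6, if_neg (by omega), if_pos (by omega)]; norm_num
  rw [Finset.sum_congr rfl key, sum_add_distrib, ← mul_sum, Finset.sum_boole, Finset.sum_boole,
    h3, h2]
  push_cast
  ring

/-- twins and pairs of joins with the same covers -/
theorem TWs_DB : ((TWs i κ).card : ℤ) =
    2 * ((((Z2s i κ).powersetCard 2).filter (fun s => (s.biUnion uc).card = 2)).card : ℤ) := by
  classical
  have h2 := two_pairs (Z2s i κ) (fun s => (s.biUnion uc).card = 2)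
  have h1 : TWs i κ = (Z2s i κ).offDiag.filter
      (fun q => (({q.1, q.2} : Finset P).biUnion uc).card = 2) := by
    ext q
    rw [mem_TWs, mem_filter, mem_offDiag]
    constructor
    · rintro ⟨a1, a2, a3, a4⟩
      refine ⟨⟨a1, a2, a3⟩, ?_⟩
      obtain ⟨p, p', y, y', D, hu, hne⟩ := Z2s_pair H hκ a1
      rw [biUnion_insert, singleton_biUnion, ← a4, union_self, hu, card_pair hne]
    · rintro ⟨⟨a1, a2, a3⟩, a4⟩
      refine ⟨a1, a2, a3, ?_⟩
      have h4 := uni_card H hκ a1 a2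
      obtain ⟨p, p', y, y', D, hu, hne⟩ := Z2s_pair H hκ a1
      obtain ⟨s, s', x, x', D', hu', hne'⟩ := Z2s_pair H hκ a2
      have c1 : (uc q.1).card = 2 := by rw [hu, card_pair hne]
      have c2 : (uc q.2).card = 2 := by rw [hu', card_pair hne']
      have e1 := eq_of_subset_of_card_le (inter_subset_left (s₁ := uc q.1) (s₂ := uc q.2))
        (by omega)
      have e2 := eq_of_subset_of_card_le (inter_subset_right (s₁ := uc q.1) (s₂ := uc q.2))
        (by omega)
      rw [← e1, e2]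
  rw [h1, h2]
  push_cast
  ring

end pr

end Pool.Agent.GaussPoset.Win.Pn
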