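import Pool.Agent.W_448t8_h97.TE

/-!
Window `j - 1` (MP_448cb3_co, case B): THE TOTALS (3,1), (5,2), (6,2), (8,3), (10,4), as sums over the
parts and over the pendants.
-/

set_option autoImplicit false

namespace Pool.Agent.GaussPoset.Win.Pn

set_option linter.unusedSectionVars false

open Finset W4 Wd
open Pool.Agent.GaussPoset.Win.SO (con PN on mem_PN vp)
open Pool.Agent.GaussPoset.Win.I2 (bb VV)
open Pool.Agent.GaussPoset.Win.So (N5s Z2s mem_Z2s env TWs mem_TWs)

universe u

variable {P : Type u} [Fintype P] [PartialOrder P] [DecidableEq P] {r i j : ℕ}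
  {psi : P → P} {C : Finset P} {p p' y y' w z v x : P}

/-- the coefficient (3,1) of the part `t` at the window `i` -/
noncomputable def A3 (i : ℕ) (t : Tops P) : ℤ := I2.al 3 (st i (SS i t)).card (ZS i (SS i t))

/-- the coefficient (5,2) of the part `t` at the window `i` -/
noncomputable def B5 (i : ℕ) (t : Tops P) : ℤ := I2.be 5 (st i (SS i t)).card (ZS i (SS i t))

/-- the additive quantity at the energy six -/
noncomputable def C6 (i : ℕ) (t : Tops P) : ℤ := So.Q6 (st i (SS i t)).card (ZS i (SS i t))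

/-- the additive quantity at the energy eight -/
noncomputable def C8 (i : ℕ) (t : Tops P) : ℤ := T8.Q8 (st i (SS i t)).card (ZS i (SS i t))

/-- the additive quantity at the energy ten -/
noncomputable def C10 (i : ℕ) (t : Tops P) : ℤ := T8.Q10 (st i (SS i t)).card (ZS i (SS i t))

/-- the joins of a pendant and an element which is not a pendant -/
noncomputable def mx (i : ℕ) : Finset P :=
  X3 i (topOf : P → Tops P) \ Z2s i (topOf : P → Tops P)

section nj

variable (h : NJ P r j) (hij : i + 1 = j) (hi1 : 1 ≤ i)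
include h hij

omit hij in
lemma nj_image : univ.image (topOf : P → Tops P) = univ := by
  rw [eq_univ_iff_forall]
  intro t
  refine mem_image.2 ⟨(t : P), mem_univ _, ?_⟩
  exact Subtype.ext (Hul.top_unique (h.nj (by have := t.2; omega)) (topOf (t : P)).2 t.2
    (le_topOf (t : P)) le_rfl)

lemma nj_bb (t : Tops P) : bb i (i + 2) (topOf : P → Tops P) t = (st i (SS i t)).card := by
  rw [show i + 2 = j + 1 by omega]
  exact h.bb_eq (by omega) t

lemma nj_VV (t : Tops P) : VV i (i + 2) (topOf : P → Tops P) t = ZS i (SS i t) := by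
  rw [show i + 2 = j + 1 by omega]
  exact h.VV_eq (by omega) t

include hi1

/-- pendants of a part -/
lemma nj_hone : ∀ p ∈ PD P i, ∀ q ∈ PD P i, (topOf p : Tops P) = topOf q → p = q := by
  intro p hp q hq hk
  obtain ⟨n1, -, -⟩ := nj_one h hij hi1 (topOf p)
  rw [card_le_one] at n1
  have m1 := nj_mem h hij hi1 (mem_PD.1 hp).1
  have m2 := nj_mem h hij hi1 (mem_PD.1 hq).1
  rw [← hk] at m2
  exact n1 p (mem_filter.2 ⟨m1, hp⟩) q (mem_filter.2 ⟨m2, hq⟩)

/-- the mixed joins at the energy eight -/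
theorem nj_mixed8 (hz : z ∈ mx (P := P) i) : Wn i (topOf : P → Tops P) 3 z ≤ 0 := by
  have H := h.g.H
  have hκ : Split (i + 2) (topOf : P → Tops P) := by
    rw [show i + 2 = j + 1 by omega]
    exact h.split
  obtain ⟨hz1, hz2⟩ := mem_sdiff.1 hz
  rcases Wn_mixed H hκ hz1 hz2 3 with h1 | ⟨p, hp, hpn, h1⟩
  · rw [h1]
  · rw [h1, show 2 * 3 - 1 = 5 from rfl]
    have lz := (mem_X3.1 hz1).1
    have lp := lev_uc H hp
    by_cases hzl : p ∈ ZL i (SS i (topOf p))
    · rw [nj_rho5_ZL h hij hi1 hzl]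
      obtain ⟨psi, hM⟩ := good_mat h.g.H (h.g.good i (by omega))
      have h0 : ∑ q ∈ (PN i (SS i (topOf p))).filter (fun q => Disjoint (sit i p) (sit i q)),
          vp i q = 0 := by
        rcases Nat.lt_or_ge 3 (st i (SS i (topOf p))).card with h4 | h4
        · exact nj_pn_zero h hij hi1 hM _ h4
        · apply Finset.sum_eq_zero
          intro q hq
          exfalso
          obtain ⟨m1, hd⟩ := mem_filter.1 hq
          have F := nj_fr h hij hi1 hM (topOf p)
          have h6 : (sit i p).card = 3 := by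
            rw [sit_low H (by omega), card_sts]
            exact (mem_ZL.1 hzl).2.2
          have h7 : sit i p ∪ sit i q ⊆ st i (SS i (topOf p)) :=
            union_subset (SO.sit_part H F.E.hC (mem_ZL.1 hzl).1)
              (SO.sit_part H F.E.hC (mem_PN.1 m1).1)
          have h8 := card_le_card h7
          rw [card_union_of_disjoint hd, h6, (pn_two F m1).1] at h8
          omega
      rw [h0]
      have : (0 : ℤ) ≤ (ntw (SS i (topOf p)) p : ℤ) := Nat.cast_nonneg _
      linarith
    · rw [nj_rho5_else h hij hi1 (by omega) hpn hzl]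

/-- the mixed joins at the energy ten -/
theorem nj_mixed10 (hz : z ∈ mx (P := P) i) : Wn i (topOf : P → Tops P) 4 z = 0 := by
  have H := h.g.H
  have hκ : Split (i + 2) (topOf : P → Tops P) := by
    rw [show i + 2 = j + 1 by omega]
    exact h.split
  obtain ⟨hz1, hz2⟩ := mem_sdiff.1 hz
  rcases Wn_mixed H hκ hz1 hz2 4 with h1 | ⟨p, hp, hpn, h1⟩
  · exact h1
  · rw [h1, show 2 * 4 - 1 = 7 from rfl]
    have lz := (mem_X3.1 hz1).1
    have lp := lev_uc H hp
    by_cases hzl : p ∈ ZL i (SS i (topOf p))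
    · rw [nj_rho7_ZL h hij hi1 hzl]
      obtain ⟨psi, hM⟩ := good_mat h.g.H (h.g.good i (by omega))
      have h0 : ∑ q ∈ (PN i (SS i (topOf p))).filter (fun q => Disjoint (sit i p) (sit i q)),
          vp i q = 0 := by
        rcases Nat.lt_or_ge 3 (st i (SS i (topOf p))).card with h4 | h4
        · exact nj_pn_zero h hij hi1 hM _ h4
        · apply Finset.sum_eq_zero
          intro q hq
          exfalso
          obtain ⟨m1, hd⟩ := mem_filter.1 hq
          have F := nj_fr h hij hi1 hM (topOf p)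
          have h6 : (sit i p).card = 3 := by
            rw [sit_low H (by omega), card_sts]
            exact (mem_ZL.1 hzl).2.2
          have h7 : sit i p ∪ sit i q ⊆ st i (SS i (topOf p)) :=
            union_subset (SO.sit_part H F.E.hC (mem_ZL.1 hzl).1)
              (SO.sit_part H F.E.hC (mem_PN.1 m1).1)
          have h8 := card_le_card h7
          rw [card_union_of_disjoint hd, h6, (pn_two F m1).1] at h8
          omega
      rw [h0, mul_zero, neg_zero]
    · exact nj_rho7_else h hij hi1 (by omega) hpn hzl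

variable (hb : 1 ≤ (lv P i).card)
include hb

/-- THE TOTAL (3,1) -/
theorem nj_R3 : ∑ t : Tops P, A3 i t = 0 := by
  have H := h.g.H
  have hir : i ≤ r := by have := h.g.hr; omega
  have hκ : Split (i + 2) (topOf : P → Tops P) := by
    rw [show i + 2 = j + 1 by omega]
    exact h.split
  obtain ⟨-, -, h3, -⟩ := T8.prod_ten (univ.image (topOf : P → Tops P))
    (bb i (i + 2) topOf) (VV i (i + 2) topOf) (nj_P10' h hij hi1)
    (fun a _ => by rw [T8.cg_cf (by omega), So.cf_zero]; exact I2.eps_VV H hir a)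
  rw [So.sum_bb hκ, T8.cg_cf (by omega), So.cf_three, So.al3_prod H hir hκ] at h3
  rw [h3, nj_image h]
  refine Finset.sum_congr rfl fun t _ => ?_
  rw [T8.cg_cf (by omega), So.cf_three, nj_bb h hij, nj_VV h hij]
  rfl

/-- THE TOTAL (5,2) -/
theorem nj_R5 : 2 * ∑ t : Tops P, B5 i t = -∑ p ∈ PD P i, zc i (topOf : P → Tops P) p := by
  have H := h.g.H
  have hir : i ≤ r := by have := h.g.hr; omega
  have hκ : Split (i + 2) (topOf : P → Tops P) := by
    rw [show i + 2 = j + 1 by omega]
    exact h.split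
  rw [← two_Z2s H hκ]
  obtain ⟨-, -, -, h3, -⟩ := T8.prod_ten (univ.image (topOf : P → Tops P))
    (bb i (i + 2) topOf) (VV i (i + 2) topOf) (nj_P10' h hij hi1)
    (fun a _ => by rw [T8.cg_cf (by omega), So.cf_zero]; exact I2.eps_VV H hir a)
  rw [So.sum_bb hκ, T8.cg_cf (by omega),
    So.cf5_prod H hi1 (by have := h.g.hr; omega) (h.g.good i (by omega)) hκ hb, nj_image h] at h3
  have h4 : ∑ t : Tops P, B5 i t = ∑ t : Tops P, T8.cg 5 (bb i (i + 2) topOf t)
      (VV i (i + 2) topOf t) := by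
    refine Finset.sum_congr rfl fun t _ => ?_
    rw [T8.cg_cf (by omega), So.cf_five, nj_bb h hij, nj_VV h hij]
    rfl
  rw [h4, ← h3]
  ring

/-- THE TOTAL (8,3) -/
theorem nj_R8 : 2 * ∑ t : Tops P, C8 i t =
    ∑ p ∈ PD P i, (2 * zc i (topOf : P → Tops P) p * (rho i (topOf : P → Tops P) 5 p -
      A3 i (topOf p)) + zc i (topOf : P → Tops P) p * (zc i (topOf : P → Tops P) p - 1)) +
      2 * ∑ z ∈ mx (P := P) i, Wn i (topOf : P → Tops P) 3 z -
        4 * ((DB i (topOf : P → Tops P)).card : ℤ) := by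
  have H := h.g.H
  have hκ : Split (i + 2) (topOf : P → Tops P) := by
    rw [show i + 2 = j + 1 by omega]
    exact h.split
  have h1 := nj_tot8' h hij hi1 hb
  have h2 : ∑ t : Tops P, C8 i t = ∑ a ∈ univ.image (topOf : P → Tops P),
      T8.Q8 (bb i (i + 2) topOf a) (VV i (i + 2) topOf a) := by
    rw [nj_image h]
    refine Finset.sum_congr rfl fun t _ => ?_
    rw [nj_bb h hij, nj_VV h hij]
    rfl
  have h3 := sum_offDiag H hκ
  have h4 := pairs_eq H hκ
  rw [← nj_PR h hij hi1] at h4
  have h5 := sum_Wn H hκ 3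
  have h6 : ∑ p ∈ PD P i, zc i (topOf : P → Tops P) p * (rho i (topOf : P → Tops P) (2 * 3 - 1) p -
      sg i (topOf : P → Tops P) (2 * 3 - 3) (topOf p)) = ∑ p ∈ PD P i,
        zc i (topOf : P → Tops P) p * (rho i (topOf : P → Tops P) 5 p - A3 i (topOf p)) := by
    refine Finset.sum_congr rfl fun p _ => ?_
    rw [show 2 * 3 - 1 = 5 from rfl, show 2 * 3 - 3 = 3 from rfl, sg_three, nj_bb h hij,
      nj_VV h hij]
    rfl
  have h7 : ∑ p ∈ PD P i, (2 * zc i (topOf : P → Tops P) p * (rho i (topOf : P → Tops P) 5 p -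
      A3 i (topOf p)) + zc i (topOf : P → Tops P) p * (zc i (topOf : P → Tops P) p - 1)) =
      2 * ∑ p ∈ PD P i, zc i (topOf : P → Tops P) p * (rho i (topOf : P → Tops P) 5 p -
        A3 i (topOf p)) + ∑ p ∈ PD P i, zc i (topOf : P → Tops P) p *
          (zc i (topOf : P → Tops P) p - 1) := by
    rw [mul_sum, ← sum_add_distrib]
    exact Finset.sum_congr rfl fun p _ => by ring
  unfold mx
  rw [h2, h1, h5, h6, h7, h3, h4]
  unfold DB
  ring

/-- THE TOTAL (10,4) -/
theorem nj_R10 : 2 * ∑ t : Tops P, C10 i t =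
    ∑ p ∈ PD P i, (4 * zc i (topOf : P → Tops P) p * (rho i (topOf : P → Tops P) 7 p -
      B5 i (topOf p)) - zc i (topOf : P → Tops P) p -
        2 * (zc i (topOf : P → Tops P) p * (zc i (topOf : P → Tops P) p - 1))) +
        4 * ((DB i (topOf : P → Tops P)).card : ℤ) +
          4 * ((N5s i (topOf : P → Tops P)).card : ℤ) := by
  have H := h.g.H
  have hκ : Split (i + 2) (topOf : P → Tops P) := by
    rw [show i + 2 = j + 1 by omega]
    exact h.split
  have h1 := nj_tot10' h hij hi1 hb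
  have h2 : ∑ t : Tops P, C10 i t = ∑ a ∈ univ.image (topOf : P → Tops P),
      T8.Q10 (bb i (i + 2) topOf a) (VV i (i + 2) topOf a) := by
    rw [nj_image h]
    refine Finset.sum_congr rfl fun t _ => ?_
    rw [nj_bb h hij, nj_VV h hij]
    rfl
  have h3 := sum_offDiag H hκ
  have h4 := pairs_eq H hκ
  rw [← nj_PR h hij hi1] at h4
  have h0 := two_Z2s H hκ
  have h5 := sum_Wn H hκ 4
  have h6 : ∑ p ∈ PD P i, zc i (topOf : P → Tops P) p * (rho i (topOf : P → Tops P) (2 * 4 - 1) p -
      sg i (topOf : P → Tops P) (2 * 4 - 3) (topOf p)) = ∑ p ∈ PD P i,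
        zc i (topOf : P → Tops P) p * (rho i (topOf : P → Tops P) 7 p - B5 i (topOf p)) := by
    refine Finset.sum_congr rfl fun p _ => ?_
    rw [show 2 * 4 - 1 = 7 from rfl, show 2 * 4 - 3 = 5 from rfl, sg_five, nj_bb h hij,
      nj_VV h hij]
    rfl
  have h8 : ∑ z ∈ mx (P := P) i, Wn i (topOf : P → Tops P) 4 z = 0 :=
    Finset.sum_eq_zero fun z hz => nj_mixed10 h hij hi1 hz
  have h7 : ∑ p ∈ PD P i, (4 * zc i (topOf : P → Tops P) p * (rho i (topOf : P → Tops P) 7 p -
      B5 i (topOf p)) - zc i (topOf : P → Tops P) p -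
        2 * (zc i (topOf : P → Tops P) p * (zc i (topOf : P → Tops P) p - 1))) =
      4 * ∑ p ∈ PD P i, zc i (topOf : P → Tops P) p * (rho i (topOf : P → Tops P) 7 p -
        B5 i (topOf p)) - ∑ p ∈ PD P i, zc i (topOf : P → Tops P) p -
          2 * ∑ p ∈ PD P i, zc i (topOf : P → Tops P) p *
          (zc i (topOf : P → Tops P) p - 1) := by
    rw [mul_sum, mul_sum, ← sum_sub_distrib, ← sum_sub_distrib]
    exact Finset.sum_congr rfl fun p _ => by ring
  unfold mx at h8
  rw [h6, h8] at h5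
  rw [h2, h7, h3, h4]
  rw [h5] at h1
  unfold DB at h1 ⊢
  linarith

/-- THE TOTAL (6,2) -/
theorem nj_R6 : ∑ t : Tops P, C6 i t =
    ∑ p ∈ PD P i, (2 * zc i (topOf : P → Tops P) p * (kc p + nn i p - 3) +
      ∑ z ∈ zs i (topOf : P → Tops P) p, kc z) + 2 * ((DB i (topOf : P → Tops P)).card : ℤ) -
        2 * ((N5s i (topOf : P → Tops P)).card : ℤ) := by
  have H := h.g.H
  have hκ : Split (i + 2) (topOf : P → Tops P) := by
    rw [show i + 2 = j + 1 by omega]
    exact h.split
  have hP : ∀ a ∈ univ.image (topOf : P → Tops P), So.P6 (bb i (i + 2) topOf a)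
      (VV i (i + 2) topOf a) := fun a ha => (nj_P10' h hij hi1 a ha).p6
  have hg : GoodTo P r (i + 1) := by rw [hij]; exact h.g
  have hu : ∀ w w' : P, lev w = i + 1 → lev w' = i + 1 → w ≠ w' → (uc w ∩ uc w').card ≤ 1 := by
    intro w w' hw hw' hne
    rw [card_uc_inter]
    exact ucv_le_one hg (by omega) hne (by omega)
  have h1 := So.tot_six_Z H hi1 (by have := h.g.hr; omega) (h.g.good i (by omega)) hκ hb hu hP
  have h2 : ∑ t : Tops P, C6 i t = ∑ a ∈ univ.image (topOf : P → Tops P),
      So.Q6 (bb i (i + 2) topOf a) (VV i (i + 2) topOf a) := by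
    rw [nj_image h]
    refine Finset.sum_congr rfl fun t _ => ?_
    rw [nj_bb h hij, nj_VV h hij]
    rfl
  have h3 := sum_env H hκ (nj_hone h hij hi1)
  have h4 : ((TWs i (topOf : P → Tops P)).card : ℤ) =
      2 * ((DB i (topOf : P → Tops P)).card : ℤ) := TWs_DB H hκ
  have h5 := two_sum H hκ (fun z => kc z)
  rw [h2, h1, h3, h4, sum_add_distrib, ← h5]
  have h6 : ∑ p ∈ PD P i, 2 * zc i (topOf : P → Tops P) p * (kc p + nn i p - 3) =
      2 * ∑ p ∈ PD P i, zc i (topOf : P → Tops P) p * (kc p + nn i p - 3) := by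
    rw [mul_sum]
    exact Finset.sum_congr rfl fun p _ => by ring
  rw [h6]
  ring

end nj

end Pool.Agent.GaussPoset.Win.Pn
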